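import Pool.Agent.Helper57.Env.Stmts

/-!
# MP_07d5fa_co, packet C (handoff 358): the charging lemma on a line
-/

namespace Pool.Agent.Helper3.Env

open Set Pool.Agent.Helper57.Env

/-- The `ξ` first elements. -/
lemma first_card {α : Type} (X : Finset α) (h : α → ℝ) (ξ : ℕ) (hX : ξ ≤ X.card) :
    ξ ≤ (X.filter (fun q => (X.filter (fun r => h r < h q)).card < ξ)).card := by
  classical
  by_cases hall : ∀ q ∈ X, (X.filter (fun r => h r < h q)).card < ξ
  · rw [Finset.filter_true_of_mem hall]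
    exact hX
  · push Not at hall
    set N := X.filter (fun q => ξ ≤ (X.filter (fun r => h r < h q)).card) with hN
    have hne : N.Nonempty := by
      obtain ⟨q, hq, hq2⟩ := hall
      exact ⟨q, Finset.mem_filter.2 ⟨hq, hq2⟩⟩
    obtain ⟨q, hq, hmin⟩ := Finset.exists_min_image N h hne
    have hq' := Finset.mem_filter.1 hq
    refine hq'.2.trans (Finset.card_le_card ?_)
    intro r hr
    obtain ⟨hr1, hr2⟩ := Finset.mem_filter.1 hr
    rw [Finset.mem_filter]
    refine ⟨hr1, ?_⟩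
    by_contra hcon
    push Not at hcon
    have := hmin r (Finset.mem_filter.2 ⟨hr1, hcon⟩)
    linarith

theorem stmtCharge : StmtCharge := by
  classical
  intro ι R g hc hfin hdis k ξ
  have hE : {q : ι × ℝ | q.1 ∈ R ∧ g q.1 q.2 = 0}.Finite := by
    have hsub : {q : ι × ℝ | q.1 ∈ R ∧ g q.1 q.2 = 0} ⊆
        ⋃ l ∈ (R : Set ι), (fun τ => (l, τ)) '' {τ | g l τ = 0} := by
      rintro ⟨l, τ⟩ ⟨h1, h2⟩
      simp only [mem_iUnion]
      exact ⟨l, h1, τ, h2, rfl⟩
    refine Set.Finite.subset ?_ hsub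
    exact Set.Finite.biUnion R.finite_toSet (fun l hl => (hfin l hl).image _)
  set EF := hE.toFinset with hEF
  have memE : ∀ q : ι × ℝ, q ∈ EF ↔ q.1 ∈ R ∧ g q.1 q.2 = 0 := by
    intro q; rw [hEF, Set.Finite.mem_toFinset]; rfl
  set Re : ι × ℝ → Finset (ι × ℝ) := fun p => EF.filter (fun q => q.1 ≠ p.1 ∧ p.2 < q.2 ∧
    ∀ σ ∈ Ioc p.2 q.2, g p.1 σ < 0) with hRe
  have memRe : ∀ p q : ι × ℝ, q ∈ Re p ↔ (q.1 ∈ R ∧ g q.1 q.2 = 0) ∧ q.1 ≠ p.1 ∧ p.2 < q.2 ∧
      ∀ σ ∈ Ioc p.2 q.2, g p.1 σ < 0 := by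
    intro p q
    rw [hRe]
    simp only [Finset.mem_filter, memE]
  have cRe : ∀ p : ι × ℝ, {q : ι × ℝ | q.1 ∈ R ∧ q.1 ≠ p.1 ∧ g q.1 q.2 = 0 ∧ p.2 < q.2 ∧
            ∀ σ ∈ Ioc p.2 q.2, g p.1 σ < 0}.ncard = (Re p).card := by
    intro p
    rw [← Set.ncard_coe_finset]
    congr 1
    ext q
    rw [Finset.mem_coe, memRe]
    simp only [mem_setOf_eq]
    tauto
  simp only [cRe]
  set SF := EF.filter (fun p => {l | l ∈ R ∧ g l p.2 < 0}.ncard ≤ k ∧ ξ ≤ (Re p).card) with hSF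
  set TF := EF.filter (fun q => {l | l ∈ R ∧ g l q.2 < 0}.ncard ≤ k + ξ) with hTF
  have eS : {p : ι × ℝ | p.1 ∈ R ∧ g p.1 p.2 = 0 ∧ {l | l ∈ R ∧ g l p.2 < 0}.ncard ≤ k ∧
      ξ ≤ (Re p).card} = (SF : Set (ι × ℝ)) := by
    ext p
    rw [hSF]
    simp only [Finset.coe_filter, mem_setOf_eq, memE]
    tauto
  have eT : {q : ι × ℝ | q.1 ∈ R ∧ g q.1 q.2 = 0 ∧ {l | l ∈ R ∧ g l q.2 < 0}.ncard ≤ k + ξ} =
      (TF : Set (ι × ℝ)) := by
    ext p
    rw [hTF]
    simp only [Finset.coe_filter, mem_setOf_eq, memE]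
    tauto
  rw [eS, eT, Set.ncard_coe_finset, Set.ncard_coe_finset, mul_comm ξ, mul_comm (k + 1)]
  have finl : ∀ τ : ℝ, {l | l ∈ R ∧ g l τ < 0}.Finite := fun τ =>
    Set.Finite.subset R.finite_toSet (fun l hl => hl.1)
  refine Finset.card_mul_le_card_mul
    (fun p q => q ∈ (Re p).filter (fun q => ((Re p).filter (fun r => r.2 < q.2)).card < ξ))
    ?_ ?_
  · intro p hp
    obtain ⟨hpE, hpk, hpξ⟩ := Finset.mem_filter.1 hp
    rw [memE] at hpE
    refine (first_card (Re p) Prod.snd ξ hpξ).trans (Finset.card_le_card ?_)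
    intro q hq
    rw [Finset.mem_bipartiteAbove]
    refine ⟨?_, hq⟩
    obtain ⟨hq1, hq2⟩ := Finset.mem_filter.1 hq
    obtain ⟨hqE, hqne, hpq, hneg⟩ := (memRe p q).1 hq1
    rw [hTF, Finset.mem_filter]
    refine ⟨(memE q).2 hqE, ?_⟩
    have hsub : {l | l ∈ R ∧ g l q.2 < 0} ⊆ ({l | l ∈ R ∧ g l p.2 < 0} ∪ {p.1}) ∪
        ((((Re p).filter (fun r => r.2 < q.2)).image Prod.fst : Finset ι) : Set ι) := by
      rintro l ⟨hlR, hlneg⟩
      by_cases h1 : g l p.2 < 0
      · exact Or.inl (Or.inl ⟨hlR, h1⟩)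
      by_cases h2 : l = p.1
      · exact Or.inl (Or.inr h2)
      right
      push Not at h1
      have h3 : g l p.2 ≠ 0 := hdis p.1 hpE.1 l hlR (Ne.symm h2) p.2 hpE.2
      have h4 : 0 < g l p.2 := lt_of_le_of_ne h1 (Ne.symm h3)
      have hiv := intermediate_value_Icc' hpq.le (hc l hlR).continuousOn
      obtain ⟨z, hz, hz0⟩ := hiv ⟨hlneg.le, h4.le⟩
      have hz1 : p.2 < z := by
        refine lt_of_le_of_ne hz.1 ?_
        rintro h5
        rw [← h5] at hz0
        exact h3 hz0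
      have hz2 : z < q.2 := by
        refine lt_of_le_of_ne hz.2 ?_
        rintro h5
        rw [h5] at hz0
        linarith
      rw [Finset.mem_coe, Finset.mem_image]
      refine ⟨(l, z), Finset.mem_filter.2 ⟨(memRe p (l, z)).2 ⟨⟨hlR, hz0⟩, h2, hz1, ?_⟩, hz2⟩, rfl⟩
      intro σ hσ
      exact hneg σ ⟨hσ.1, hσ.2.trans hz2.le⟩
    have hfin3 : (({l | l ∈ R ∧ g l p.2 < 0} ∪ {p.1}) ∪
        ((((Re p).filter (fun r => r.2 < q.2)).image Prod.fst : Finset ι) : Set ι)).Finite :=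
      ((finl p.2).union (Set.finite_singleton _)).union (Finset.finite_toSet _)
    have c1 := Set.ncard_le_ncard hsub hfin3
    have c2 := Set.ncard_union_le ({l | l ∈ R ∧ g l p.2 < 0} ∪ {p.1})
      ((((Re p).filter (fun r => r.2 < q.2)).image Prod.fst : Finset ι) : Set ι)
    have c3 := Set.ncard_union_le {l | l ∈ R ∧ g l p.2 < 0} {p.1}
    rw [Set.ncard_singleton] at c3
    rw [Set.ncard_coe_finset] at c2
    have c4 : (((Re p).filter (fun r => r.2 < q.2)).image Prod.fst).card ≤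
      ((Re p).filter (fun r => r.2 < q.2)).card := Finset.card_image_le
    omega
  · intro q hq
    set W := SF.bipartiteBelow
      (fun p q => q ∈ (Re p).filter (fun q => ((Re p).filter (fun r => r.2 < q.2)).card < ξ)) q
      with hW
    have memW : ∀ p ∈ W, (p.1 ∈ R ∧ g p.1 p.2 = 0) ∧
        {l | l ∈ R ∧ g l p.2 < 0}.ncard ≤ k ∧ p.2 < q.2 ∧
        ∀ σ ∈ Ioc p.2 q.2, g p.1 σ < 0 := by
      intro p hp
      rw [hW, Finset.mem_bipartiteBelow] at hp
      obtain ⟨h1, h2⟩ := hp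
      obtain ⟨hpE, hpk, hpξ⟩ := Finset.mem_filter.1 h1
      obtain ⟨h3, h4⟩ := Finset.mem_filter.1 h2
      obtain ⟨_, _, h5, h6⟩ := (memRe p q).1 h3
      exact ⟨(memE p).1 hpE, hpk, h5, h6⟩
    rcases W.eq_empty_or_nonempty with hWe | hWne
    · rw [hWe]; simp
    · obtain ⟨ps, hps, hmax⟩ := Finset.exists_max_image W Prod.snd hWne
      obtain ⟨hpsE, hpsk, hpsq, hpsneg⟩ := memW ps hps
      have hcard : (W.erase ps).card ≤ k := by
        refine le_trans ?_ hpsk
        rw [← Set.ncard_coe_finset]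
        refine Set.ncard_le_ncard_of_injOn Prod.fst ?_ ?_ (finl ps.2)
        · intro p hp
          rw [Finset.mem_coe, Finset.mem_erase] at hp
          obtain ⟨hne, hp⟩ := hp
          obtain ⟨hpE, hpk, hpq, hneg⟩ := memW p hp
          have hle := hmax p hp
          have hlt : p.2 < ps.2 := by
            refine lt_of_le_of_ne hle ?_
            intro heq
            apply hne
            by_contra hne2
            have h1 : p.1 ≠ ps.1 := fun h => hne2 (Prod.ext h heq)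
            apply hdis p.1 hpE.1 ps.1 hpsE.1 h1 p.2 hpE.2
            rw [heq]; exact hpsE.2
          exact ⟨hpE.1, hneg ps.2 ⟨hlt, hpsq.le⟩⟩
        · intro p hp p' hp' heq
          rw [Finset.mem_coe, Finset.mem_erase] at hp hp'
          obtain ⟨hpE, hpk, hpq, hneg⟩ := memW p hp.2
          obtain ⟨hpE', hpk', hpq', hneg'⟩ := memW p' hp'.2
          refine Prod.ext heq ?_
          rcases lt_trichotomy p.2 p'.2 with h | h | h
          · exfalso
            have := hneg p'.2 ⟨h, hpq'.le⟩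
            rw [heq, hpE'.2] at this
            exact lt_irrefl _ this
          · exact h
          · exfalso
            have := hneg' p.2 ⟨h, hpq.le⟩
            rw [← heq, hpE.2] at this
            exact lt_irrefl _ this
      have := Finset.card_erase_add_one hps
      omega

end Pool.Agent.Helper3.Env
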