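import Pool.Agent.Helper57.Env.Stmts

/-!
# MP_07d5fa_co, packet D (handoff 359): the dichotomy
-/

namespace Pool.Agent.Helper3.Env

open Set Pool.Agent.Helper57.Env

variable {ι : Type} {s t : ℕ} (F : Par ι s t)

lemma oc_cont (a b : ι) (o : Or F a b) : Continuous (oc F a b o) := by
  unfold oc
  by_cases h : o.2
  · simp only [h, if_true]
    exact F.c_cont a b o.1
  · simp only [h]
    exact (F.c_cont a b o.1).comp continuous_neg

lemma oc_eq (a b : ι) (o : Or F a b) (τ : ℝ) : F.f a (oc F a b o τ) = F.f b (oc F a b o τ) :=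
  F.c_eq a b o.1 _

lemma oc_inj (a b : ι) (o : Or F a b) : Function.Injective (oc F a b o) := by
  intro σ τ h
  have := (F.c_inj a b o.1 o.1 _ _ h).2
  by_cases h2 : o.2
  · simpa [h2] using this
  · simpa [h2] using this

/-- The finite set of events. -/
lemma evR_finite (R : Finset ι) (a b c : ι) (hab : a ≠ b) (o : Or F a b) (τ : ℝ) :
    (evR F R a b c o τ).Finite := by
  classical
  have h : evR F R a b c o τ ⊆ ⋃ l ∈ (R : Set ι), (if l ≠ a ∧ l ≠ b then
      (fun q => (l, q)) '' ((oc F a b o) ⁻¹' {x | F.f a x = F.f b x ∧ F.f b x = F.f l x})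
      else ∅) := by
    rintro ⟨l, q⟩ ⟨h1, h2, h3, -, h5, -⟩
    simp only [mem_iUnion]
    refine ⟨l, h1, ?_⟩
    simp only at h2 h3 h5
    rw [if_pos ⟨h2, h3⟩]
    refine ⟨q, ⟨oc_eq F a b o q, ?_⟩, rfl⟩
    rw [h5]
    exact (oc_eq F a b o q).symm
  refine Set.Finite.subset ?_ h
  refine Set.Finite.biUnion R.finite_toSet ?_
  intro l _
  by_cases hl : l ≠ a ∧ l ≠ b
  · rw [if_pos hl]
    refine Set.Finite.image _ ?_
    refine Set.Finite.preimage ((oc_inj F a b o).injOn) ?_
    refine Set.finite_of_encard_le_coe (F.triple a b l hab (Ne.symm hl.1) (Ne.symm hl.2))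
  · rw [if_neg hl]
    exact Set.finite_empty

/-- The relation of the proof. -/
def Step' (R T : Finset ι) (ξ : ℕ) (u u' : ℝ × ℝ) : Prop :=
  ∃ a b c, Is3 T a b c ∧ ∃ (o : Or F a b) (τ τ' : ℝ), τ < τ' ∧ oc F a b o τ = u ∧
    oc F a b o τ' = u' ∧ u' ∈ TP F T ∧
    (∀ σ ∈ Ioo τ τ', F.f c (oc F a b o σ) < F.f a (oc F a b o σ)) ∧
    (evR F R a b c o τ).ncard < ξ

/-- A function strictly above `f a` at the left end of a hidden interval and without events stays
above. -/
lemma stay (R T : Finset ι) (a b c : ι) (h3 : Is3 T a b c) (o : Or F a b) (τ q : ℝ) (l : ι)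
    (hlR : l ∈ R) (hlT : l ∉ T) (hτq : τ ≤ q)
    (h0 : F.f a (oc F a b o τ) < F.f l (oc F a b o τ))
    (hh : ∀ σ ∈ Ioc τ q, F.f c (oc F a b o σ) < F.f a (oc F a b o σ))
    (hev : ∀ q', (l, q') ∉ evR F R a b c o τ) :
    F.f a (oc F a b o q) < F.f l (oc F a b o q) := by
  by_contra hcon
  push Not at hcon
  have hc : ContinuousOn (fun σ => F.f l (oc F a b o σ) - F.f a (oc F a b o σ)) (Icc τ q) :=
    (((F.cont l).comp (oc_cont F a b o)).sub ((F.cont a).comp (oc_cont F a b o))).continuousOn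
  have h := intermediate_value_Icc' hτq hc
  have hmem : (0 : ℝ) ∈ Icc (F.f l (oc F a b o q) - F.f a (oc F a b o q))
      (F.f l (oc F a b o τ) - F.f a (oc F a b o τ)) := ⟨by linarith, by linarith⟩
  obtain ⟨z, hz, hz0⟩ := h hmem
  simp only at hz0
  have hzτ : z ≠ τ := by
    rintro rfl
    linarith
  have hτz : τ < z := lt_of_le_of_ne hz.1 (Ne.symm hzτ)
  apply hev z
  refine ⟨hlR, ?_, ?_, ?_, ?_, hτz, ?_⟩
  · rintro rfl; exact hlT h3.1
  · rintro rfl; exact hlT h3.2.1
  · rintro rfl; exact hlT h3.2.2.1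
  · simp only
    linarith
  · intro σ hσ
    exact hh σ ⟨hσ.1, hσ.2.trans hz.2⟩

open Classical in
/-- The set of bad functions. -/
noncomputable def badL (R T : Finset ι) (v : ℝ × ℝ) (ξ : ℕ) : Finset ι :=
  R.filter (fun l => l ∉ T ∧ ∃ a b c, Is3 T a b c ∧ ∃ (o : Or F a b) (τ q : ℝ),
    Relation.ReflTransGen (Step' F R T ξ) v (oc F a b o τ) ∧ oc F a b o τ ∈ TP F T ∧
    (evR F R a b c o τ).ncard < ξ ∧ (l, q) ∈ evR F R a b c o τ)

/-- The bad functions attached to one tuple. -/
def G (R : Finset ι) (ξ : ℕ) (a b c : ι) (u : ℝ × ℝ) (β : Bool) : Set ι :=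
  {l | ∃ (α : Fin (F.m a b)) (τ q : ℝ), oc F a b (α, β) τ = u ∧
    (evR F R a b c (α, β) τ).ncard < ξ ∧ (l, q) ∈ evR F R a b c (α, β) τ}

lemma G_ncard (R : Finset ι) (ξ : ℕ) (a b c : ι) (hab : a ≠ b) (u : ℝ × ℝ) (β : Bool) :
    (G F R ξ a b c u β).ncard ≤ ξ := by
  by_cases h : ∃ (α : Fin (F.m a b)) (τ : ℝ), oc F a b (α, β) τ = u ∧
      (evR F R a b c (α, β) τ).ncard < ξ
  · obtain ⟨α, τ, h1, h2⟩ := h
    have hsub : G F R ξ a b c u β ⊆ Prod.fst '' (evR F R a b c (α, β) τ) := by
      rintro l ⟨α', τ', q, h1', h2', h3'⟩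
      have hinj := F.c_inj a b α' α _ _ (h1'.trans h1.symm)
      obtain ⟨e1, e2⟩ := hinj
      subst e1
      have e3 : τ' = τ := by
        cases β
        · simpa using e2
        · simpa using e2
      subst e3
      exact ⟨(l, q), h3', rfl⟩
    calc (G F R ξ a b c u β).ncard ≤ (Prod.fst '' (evR F R a b c (α, β) τ)).ncard :=
          Set.ncard_le_ncard hsub ((evR_finite F R a b c hab _ _).image _)
      _ ≤ (evR F R a b c (α, β) τ).ncard := Set.ncard_image_le (evR_finite F R a b c hab _ _)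
      _ ≤ ξ := h2.le
  · have : G F R ξ a b c u β = ∅ := by
      ext l
      simp only [mem_empty_iff_false, iff_false]
      rintro ⟨α', τ', q, h1', h2', -⟩
      exact h ⟨α', τ', h1', h2'⟩
    rw [this]
    simp

lemma exists_three {T : Finset ι} (hT : T.card = 3) : ∃ a b c, Is3 T a b c ∧
    ∀ x ∈ T, x = a ∨ x = b ∨ x = c := by
  classical
  obtain ⟨a, b, c, hab, hac, hbc, rfl⟩ := Finset.card_eq_three.1 hT
  exact ⟨a, b, c, ⟨by simp, by simp, by simp, hab, hac, hbc⟩, by simp⟩

lemma TP_encard {T : Finset ι} (hT : T.card = 3) : (TP F T).encard ≤ s := by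
  obtain ⟨a, b, c, ⟨ha, hb, hc, hab, hac, hbc⟩, -⟩ := exists_three hT
  refine le_trans (Set.encard_le_encard ?_) (F.triple a b c hab hac hbc)
  intro x hx
  exact ⟨hx a ha b hb, hx b hb c hc⟩

lemma badL_card (R T : Finset ι) (hT : T.card = 3) (v : ℝ × ℝ) (ξ : ℕ) [Finite ι] :
    (badL F R T v ξ).card ≤ 12 * s * ξ := by
  classical
  have hTPf : (TP F T).Finite := Set.finite_of_encard_le_coe (TP_encard F hT)
  have hU : hTPf.toFinset.card ≤ s := by
    have := TP_encard F hT
    rw [hTPf.encard_eq_coe_toFinset_card] at this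
    exact_mod_cast this
  have hsub : badL F R T v ξ ⊆ T.biUnion (fun a => (T.erase a).biUnion (fun b =>
      ((T.erase a).erase b).biUnion (fun c => hTPf.toFinset.biUnion (fun u =>
        (Finset.univ : Finset Bool).biUnion (fun β =>
          (Set.toFinite (G F R ξ a b c u β)).toFinset))))) := by
    intro l hl
    obtain ⟨-, -, a, b, c, ⟨ha, hb, hc, hab, hac, hbc⟩, ⟨α, β⟩, τ, q, -, h5, h6, h7⟩ :=
      Finset.mem_filter.1 hl
    simp only [Finset.mem_biUnion]
    refine ⟨a, ha, b, Finset.mem_erase.2 ⟨hab.symm, hb⟩, c,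
      Finset.mem_erase.2 ⟨hbc.symm, Finset.mem_erase.2 ⟨hac.symm, hc⟩⟩,
      oc F a b (α, β) τ, by simpa using h5, β, Finset.mem_univ _, ?_⟩
    rw [Set.Finite.mem_toFinset]
    exact ⟨α, τ, q, rfl, h6, h7⟩
  refine (Finset.card_le_card hsub).trans ?_
  have hb1 : ∀ a ∈ T, ((T.erase a).biUnion (fun b =>
      ((T.erase a).erase b).biUnion (fun c => hTPf.toFinset.biUnion (fun u =>
        (Finset.univ : Finset Bool).biUnion (fun β =>
          (Set.toFinite (G F R ξ a b c u β)).toFinset))))).card ≤ 2 * (1 * (s * (2 * ξ))) := by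
    intro a ha
    have ca : (T.erase a).card = 2 := by rw [Finset.card_erase_of_mem ha, hT]
    refine (Finset.card_biUnion_le_card_mul _ _ (1 * (s * (2 * ξ))) ?_).trans
      (le_of_eq (by rw [ca]))
    intro b hb
    have cb : ((T.erase a).erase b).card = 1 := by rw [Finset.card_erase_of_mem hb, ca]
    have hab : a ≠ b := (Finset.ne_of_mem_erase hb).symm
    refine (Finset.card_biUnion_le_card_mul _ _ (s * (2 * ξ)) ?_).trans
      (le_of_eq (by rw [cb]))
    intro c _
    refine (Finset.card_biUnion_le_card_mul _ _ (2 * ξ) ?_).trans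
      (Nat.mul_le_mul_right _ hU)
    intro u _
    have c2 : (Finset.univ : Finset Bool).card = 2 := by simp
    refine (Finset.card_biUnion_le_card_mul _ _ ξ ?_).trans
      (le_of_eq (by rw [c2]))
    intro β _
    rw [← Set.ncard_eq_toFinset_card _ (Set.toFinite (G F R ξ a b c u β))]
    exact G_ncard F R ξ a b c hab u β
  refine (Finset.card_biUnion_le_card_mul _ _ _ hb1).trans ?_
  rw [hT]
  apply le_of_eq
  ring

lemma Y_TP (R T : Finset ι) (v : ℝ × ℝ) (ξ : ℕ) (hv : v ∈ TP F T) (u : ℝ × ℝ)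
    (h : Relation.ReflTransGen (Step' F R T ξ) v u) : u ∈ TP F T := by
  induction h with
  | refl => exact hv
  | tail _ h _ =>
    obtain ⟨a, b, c, -, o, τ, τ', -, -, -, h, -⟩ := h
    exact h

lemma Y_above (R T : Finset ι) (v : ℝ × ℝ) (ξ : ℕ) (hv : v ∈ TP F T)
    (hab : Above F R T v) (l : ι) (hlR : l ∈ R) (hlT : l ∉ T) (hlL : l ∉ badL F R T v ξ)
    (u : ℝ × ℝ) (h : Relation.ReflTransGen (Step' F R T ξ) v u) :
    ∀ a ∈ T, F.f a u < F.f l u := by
  classical
  induction h with
  | refl => exact hab l hlR hlT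
  | @tail u u' h1 h2 ih =>
    have hu := Y_TP F R T v ξ hv u h1
    obtain ⟨a, b, c, h3, o, τ, τ', hττ', hu1, hu2, hTP, hhid, hcard⟩ := h2
    have hev : ∀ q', (l, q') ∉ evR F R a b c o τ := by
      intro q' hq'
      apply hlL
      unfold badL
      rw [Finset.mem_filter]
      refine ⟨hlR, hlT, a, b, c, h3, o, τ, q', ?_, ?_, hcard, hq'⟩
      · rw [hu1]; exact h1
      · rw [hu1]; exact hu
    have h0 : F.f a (oc F a b o τ) < F.f l (oc F a b o τ) := by
      rw [hu1]; exact ih a h3.1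
    have hlt : ∀ q, τ ≤ q → q < τ' → F.f a (oc F a b o q) < F.f l (oc F a b o q) := by
      intro q hq1 hq2
      exact stay F R T a b c h3 o τ q l hlR hlT hq1 h0
        (fun σ hσ => hhid σ ⟨hσ.1, lt_of_le_of_lt hσ.2 hq2⟩) hev
    have hle : F.f a (oc F a b o τ') ≤ F.f l (oc F a b o τ') := by
      have hc1 : Continuous (fun σ => F.f a (oc F a b o σ)) := (F.cont a).comp (oc_cont F a b o)
      have hc2 : Continuous (fun σ => F.f l (oc F a b o σ)) := (F.cont l).comp (oc_cont F a b o)
      have hcl : IsClosed {σ | F.f a (oc F a b o σ) ≤ F.f l (oc F a b o σ)} :=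
        isClosed_le hc1 hc2
      have hsub : Ioo τ τ' ⊆ {σ | F.f a (oc F a b o σ) ≤ F.f l (oc F a b o σ)} :=
        fun σ hσ => (hlt σ hσ.1.le hσ.2).le
      have h5 := closure_minimal hsub hcl
      rw [closure_Ioo hττ'.ne] at h5
      exact h5 ⟨hττ'.le, le_rfl⟩
    have hne : F.f a (oc F a b o τ') ≠ F.f l (oc F a b o τ') := by
      intro heq
      obtain ⟨ha, hb, hc, h12, h13, h23⟩ := h3
      rw [hu2] at heq
      refine F.quad a b c l h12 h13 ?_ h23 ?_ ?_ u' ⟨hTP a ha b hb, hTP b hb c hc, ?_⟩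
      · rintro rfl; exact hlT ha
      · rintro rfl; exact hlT hb
      · rintro rfl; exact hlT hc
      · rw [← heq]; exact hTP c hc a ha
    have hfin : F.f a u' < F.f l u' := by
      rw [← hu2]; exact lt_of_le_of_ne hle hne
    intro a' ha'
    rw [hTP a' ha' a h3.1]
    exact hfin

theorem stmtDich : StmtDich := by
  classical
  intro ι _ s t F R T v ξ hTR hT hv hab
  have hL := badL_card F R T hT v ξ
  by_cases hcase : ∃ a b c, Is3 T a b c ∧ ∃ (o : Or F a b) (τ : ℝ),
      Relation.ReflTransGen (Step' F R T ξ) v (oc F a b o τ) ∧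
      ξ ≤ (evR F R a b c o τ).ncard
  · left
    obtain ⟨a, b, c, h3, o, τ, h4, h5⟩ := hcase
    have hTP := Y_TP F R T v ξ hv _ h4
    refine ⟨oc F a b o τ, hTP, a, b, c, h3, o, τ, rfl, ?_, h5⟩
    refine le_trans ?_ hL
    unfold lev
    rw [← Set.ncard_coe_finset]
    refine Set.ncard_le_ncard ?_ (Finset.finite_toSet _)
    rintro l ⟨hl1, hl2⟩
    rw [Finset.mem_coe]
    by_contra hlL
    by_cases hlT : l ∈ T
    · have := hTP l hlT a h3.1
      linarith
    · have := Y_above F R T v ξ hv hab l hl1 hlT hlL _ h4 a h3.1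
      linarith
  · right
    push Not at hcase
    refine ⟨badL F R T v ξ, Finset.filter_subset _ _, ?_, hL, ?_⟩
    · rw [Finset.disjoint_left]
      intro x hx hx2
      exact (Finset.mem_filter.1 hx2).2.1 hx
    · intro R' hTR' hR'R hdis
      have hgood : ∀ l ∈ R', l ∉ T → l ∈ R ∧ l ∉ badL F R T v ξ := by
        intro l hl _
        exact ⟨hR'R hl, Finset.disjoint_left.1 hdis hl⟩
      have hAb : ∀ u, Relation.ReflTransGen (Step' F R T ξ) v u → Above F R' T u := by
        intro u hu l hl hlT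
        exact Y_above F R T v ξ hv hab l (hgood l hl hlT).1 hlT (hgood l hl hlT).2 u hu
      have hev : ∀ a b c, Is3 T a b c → ∀ (o : Or F a b) (τ : ℝ),
          Relation.ReflTransGen (Step' F R T ξ) v (oc F a b o τ) →
          ∀ l ∈ R', l ∉ T → ∀ q', (l, q') ∉ evR F R a b c o τ := by
        intro a b c h3 o τ hY l hl hlT q' hq'
        apply (hgood l hl hlT).2
        unfold badL
        rw [Finset.mem_filter]
        exact ⟨(hgood l hl hlT).1, hlT, a, b, c, h3, o, τ, q', hY, Y_TP F R T v ξ hv _ hY,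
          hcase a b c h3 o τ hY, hq'⟩
      have hst : ∀ a b c, Is3 T a b c → ∀ (o : Or F a b) (τ : ℝ),
          Relation.ReflTransGen (Step' F R T ξ) v (oc F a b o τ) → ∀ q, τ < q →
          (∀ σ ∈ Ioc τ q, F.f c (oc F a b o σ) < F.f a (oc F a b o σ)) →
          ∀ l ∈ R', l ∉ T → F.f a (oc F a b o q) < F.f l (oc F a b o q) := by
        intro a b c h3 o τ hY q hq hh l hl hlT
        exact stay F R T a b c h3 o τ q l (hgood l hl hlT).1 hlT hq.le
          (hAb _ hY l hl hlT a h3.1) hh (hev a b c h3 o τ hY l hl hlT)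
      by_cases hI : ∃ u, Relation.ReflTransGen (Step' F R T ξ) v u ∧
          ∃ a ∈ T, ∃ b ∈ T, a ≠ b ∧ u ∈ F.P a b
      · left
        obtain ⟨u, hu, hP⟩ := hI
        exact ⟨u, Y_TP F R T v ξ hv u hu, hP, hAb u hu⟩
      · right
        by_cases hU : ∃ a b c, Is3 T a b c ∧ ∃ (o : Or F a b) (τ : ℝ),
            Relation.ReflTransGen (Step' F R T ξ) v (oc F a b o τ) ∧
            ∀ σ, τ < σ → F.f c (oc F a b o σ) < F.f a (oc F a b o σ)
        · left
          obtain ⟨a, b, c, h3, o, τ, hY, hh⟩ := hU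
          refine ⟨a, b, c, h3, o, τ, fun σ hσ => ⟨hh σ hσ, ?_⟩⟩
          exact hst a b c h3 o τ hY σ hσ (fun σ' hσ' => hh σ' hσ'.1)
        · right
          push Not at hI hU
          have hYall : ∀ u, Relation.ReflTransGen (Step F T) v u →
              Relation.ReflTransGen (Step' F R T ξ) v u := by
            intro u hu
            induction hu with
            | refl => exact Relation.ReflTransGen.refl
            | @tail w w' _ h2 ih =>
              refine Relation.ReflTransGen.tail ih ?_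
              obtain ⟨a, b, c, h3, o, τ, τ', h4, h5, h6, h7, h8⟩ := h2
              exact ⟨a, b, c, h3, o, τ, τ', h4, h5, h6, h7, h8,
                hcase a b c h3 o τ (by rw [h5]; exact ih)⟩
          intro u hu
          have hY := hYall u hu
          refine ⟨hI u hY, hAb u hY, ?_⟩
          rintro a b c h3 o τ rfl ⟨q, hq, hhid⟩
          obtain ⟨σ₀, hσ₀, hσ₀'⟩ := hU a b c h3 o τ hY
          have hc1 : Continuous (fun σ => F.f a (oc F a b o σ)) :=
            (F.cont a).comp (oc_cont F a b o)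
          have hc2 : Continuous (fun σ => F.f c (oc F a b o σ)) :=
            (F.cont c).comp (oc_cont F a b o)
          set S : Set ℝ := {σ | q ≤ σ ∧ F.f a (oc F a b o σ) ≤ F.f c (oc F a b o σ)} with hS
          have hScl : IsClosed S := isClosed_Ici.inter (isClosed_le hc1 hc2)
          have hSne : S.Nonempty := by
            refine ⟨σ₀, ?_, hσ₀'⟩
            by_contra hcon
            push Not at hcon
            have := hhid σ₀ ⟨hσ₀, hcon.le⟩
            linarith
          have hSb : BddBelow S := ⟨q, fun σ hσ => hσ.1⟩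
          have hmem : sInf S ∈ S := hScl.csInf_mem hSne hSb
          set τ' := sInf S with hτ'
          have hqτ' : q ≤ τ' := hmem.1
          have hbelow : ∀ σ ∈ Ioo τ τ', F.f c (oc F a b o σ) < F.f a (oc F a b o σ) := by
            intro σ hσ
            by_cases hσq : σ ≤ q
            · exact hhid σ ⟨hσ.1, hσq⟩
            · push Not at hσq
              by_contra hcon
              push Not at hcon
              have : τ' ≤ σ := csInf_le hSb ⟨hσq.le, hcon⟩
              linarith [hσ.2]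
          refine ⟨τ', lt_of_lt_of_le hq hqτ', ?_, ?_⟩
          · apply le_antisymm _ hmem.2
            have hcl : IsClosed {σ | F.f c (oc F a b o σ) ≤ F.f a (oc F a b o σ)} :=
              isClosed_le hc2 hc1
            have hsub : Ioo τ τ' ⊆ {σ | F.f c (oc F a b o σ) ≤ F.f a (oc F a b o σ)} :=
              fun σ hσ => (hbelow σ hσ).le
            have h5 := closure_minimal hsub hcl
            have hlt : τ < τ' := lt_of_lt_of_le hq hqτ'
            rw [closure_Ioo hlt.ne] at h5
            exact h5 ⟨hlt.le, le_rfl⟩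
          · intro σ hσ
            refine ⟨hbelow σ hσ, ?_⟩
            exact hst a b c h3 o τ hY σ hσ.1
              (fun σ' hσ' => hbelow σ' ⟨hσ'.1, lt_of_le_of_lt hσ'.2 hσ.2⟩)

end Pool.Agent.Helper3.Env
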